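import Pool.Agent.Helper19.SDim.Spec

/-!
# BARR: the explicit subsolutions
-/

noncomputable section

open MeasureTheory Filter Set Metric
open scoped Topology ENNReal NNReal RealInnerProductSpace ContDiff Gradient

namespace Helper35.SDim

open Helper19.SDim

/-- The profile of the vector field. -/
structure MData (κ ρ ε : ℝ) (M : ℝ → ℝ) : Prop where
  c1 : ContDiff ℝ 1 M
  nonneg : ∀ s, 0 ≤ M s
  le : ∀ s, 0 ≤ s → M s ≤ (s + ε ^ 2) ^ (-κ)
  eq : ∀ s, 0 ≤ s → s ≤ ρ ^ 2 / 4 → M s = (s + ε ^ 2) ^ (-κ)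
  zero : ∀ s, ρ ^ 2 ≤ s → M s = 0
  anti : ∀ s, 0 < s → deriv M s ≤ 0

lemma exists_M (κ ρ ε : ℝ) (hκ : 0 < κ) (hρ : 0 < ρ) (hε : 0 < ε) : ∃ M, MData κ ρ ε M := by
  set θ : ℝ → ℝ := fun s => Real.smoothTransition ((s + ε ^ 2 * (3 / 4)) / (ε ^ 2 / 2)) with hθ
  set m : ℝ → ℝ := fun s => θ s * (s + ε ^ 2) + (1 - θ s) with hm
  set χ : ℝ → ℝ := fun s => Real.smoothTransition ((ρ ^ 2 - s) / (3 * ρ ^ 2 / 4)) with hχ
  have hε2 : 0 < ε ^ 2 := by positivity
  have hρ2 : 0 < ρ ^ 2 := by positivity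
  have hmpos : ∀ s, 0 < m s := by
    intro s
    by_cases h : s + ε ^ 2 * (3 / 4) ≤ 0
    · have : θ s = 0 := Real.smoothTransition.zero_of_nonpos
        (div_nonpos_of_nonpos_of_nonneg h (by positivity))
      simp [hm, this]
    · push Not at h
      have h1 : 0 < θ s := Real.smoothTransition.pos_of_pos (by positivity)
      have h2 : θ s ≤ 1 := Real.smoothTransition.le_one _
      have h3 : 0 < s + ε ^ 2 := by nlinarith
      have := mul_pos h1 h3
      simp only [hm]
      linarith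
  have hmeq : ∀ s, 0 ≤ s → m s = s + ε ^ 2 := by
    intro s hs
    have : θ s = 1 := by
      apply Real.smoothTransition.one_of_one_le
      rw [one_le_div (by positivity)]
      nlinarith
    simp [hm, this]
  have hχ0 : ∀ s, 0 ≤ χ s := fun s => Real.smoothTransition.nonneg _
  have hχ1 : ∀ s, χ s ≤ 1 := fun s => Real.smoothTransition.le_one _
  have hχanti : Antitone χ := by
    intro a b hab
    apply Real.smoothTransition.monotone
    gcongr
  have hθc : ContDiff ℝ 1 θ := by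
    have h1 : ContDiff ℝ 1 (fun s : ℝ => (s + ε ^ 2 * (3 / 4)) / (ε ^ 2 / 2)) := by fun_prop
    exact (Real.smoothTransition.contDiff (n := 1)).comp h1
  have hχc : ContDiff ℝ 1 χ := by
    have h1 : ContDiff ℝ 1 (fun s : ℝ => (ρ ^ 2 - s) / (3 * ρ ^ 2 / 4)) := by fun_prop
    exact (Real.smoothTransition.contDiff (n := 1)).comp h1
  have hmc : ContDiff ℝ 1 m := by
    apply ContDiff.add
    · exact hθc.mul (by fun_prop)
    · exact contDiff_const.sub hθc
  refine ⟨fun s => m s ^ (-κ) * χ s, ?_, ?_, ?_, ?_, ?_, ?_⟩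
  · exact (hmc.rpow_const_of_ne (fun x => (hmpos x).ne')).mul hχc
  · intro s
    exact mul_nonneg (Real.rpow_nonneg (hmpos s).le _) (hχ0 s)
  · intro s hs
    show m s ^ (-κ) * χ s ≤ _
    rw [hmeq s hs]
    apply mul_le_of_le_one_right (by positivity) (hχ1 s)
  · intro s hs hs'
    show m s ^ (-κ) * χ s = _
    rw [hmeq s hs]
    have : χ s = 1 := by
      apply Real.smoothTransition.one_of_one_le
      rw [one_le_div (by positivity)]
      linarith
    rw [this, mul_one]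
  · intro s hs
    show m s ^ (-κ) * χ s = _
    have : χ s = 0 := by
      apply Real.smoothTransition.zero_of_nonpos
      apply div_nonpos_of_nonpos_of_nonneg (by linarith) (by positivity)
    rw [this, mul_zero]
  · intro s hs
    have hanti : AntitoneOn (fun s => m s ^ (-κ) * χ s) (Ioi 0) := by
      intro a ha b hb hab
      have ha : 0 < a := ha
      have hb : 0 < b := hb
      show m b ^ (-κ) * χ b ≤ m a ^ (-κ) * χ a
      rw [hmeq a ha.le, hmeq b hb.le]
      apply mul_le_mul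
      · rw [Real.rpow_neg (by positivity), Real.rpow_neg (by positivity)]
        gcongr
      · exact hχanti hab
      · exact hχ0 b
      · positivity
    have := hanti.derivWithin_nonpos (x := s)
    rwa [derivWithin_of_isOpen isOpen_Ioi hs] at this

/-- The integrand. -/
def hfun (p : ℝ) (M : ℝ → ℝ) (s : ℝ) : ℝ :=
  M s ^ (1 / (p - 1)) * |s| ^ ((2 - p) / (2 * (p - 1)))

/-- The profile of the barrier. -/
def Wfun (p ρ : ℝ) (M : ℝ → ℝ) (t : ℝ) : ℝ := (1 / 2) * ∫ s in t..ρ ^ 2, hfun p M s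

lemma hfun_cont {p κ ρ ε : ℝ} {M : ℝ → ℝ} (hp : 1 < p) (hp2 : p < 2) (hM : MData κ ρ ε M) :
    Continuous (hfun p M) := by
  have h1 : 0 ≤ 1 / (p - 1) := by
    apply div_nonneg zero_le_one; linarith
  have h2 : 0 ≤ (2 - p) / (2 * (p - 1)) := by
    apply div_nonneg <;> nlinarith
  exact (hM.c1.continuous.rpow_const (fun _ => Or.inr h1)).mul
    (continuous_abs.rpow_const (fun _ => Or.inr h2))

lemma hfun_nonneg {p κ ρ ε : ℝ} {M : ℝ → ℝ} (hM : MData κ ρ ε M) (s : ℝ) : 0 ≤ hfun p M s :=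
  mul_nonneg (Real.rpow_nonneg (hM.nonneg s) _) (Real.rpow_nonneg (abs_nonneg _) _)

lemma Wfun_deriv {p κ ρ ε : ℝ} {M : ℝ → ℝ} (hp : 1 < p) (hp2 : p < 2) (hM : MData κ ρ ε M)
    (t : ℝ) : HasDerivAt (Wfun p ρ M) (-(1 / 2) * hfun p M t) t := by
  have hc := hfun_cont hp hp2 hM
  have h1 := intervalIntegral.integral_hasDerivAt_left (a := t) (b := ρ ^ 2)
    (hc.intervalIntegrable _ _) (hc.stronglyMeasurableAtFilter _ _) hc.continuousAt
  have h2 := h1.const_mul (1 / 2)
  refine h2.congr_deriv ?_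
  ring

lemma Wfun_c1 {p κ ρ ε : ℝ} {M : ℝ → ℝ} (hp : 1 < p) (hp2 : p < 2) (hM : MData κ ρ ε M) :
    ContDiff ℝ 1 (Wfun p ρ M) := by
  rw [contDiff_one_iff_deriv]
  refine ⟨fun t => (Wfun_deriv hp hp2 hM t).differentiableAt, ?_⟩
  have : deriv (Wfun p ρ M) = fun t => -(1 / 2) * hfun p M t :=
    funext fun t => (Wfun_deriv hp hp2 hM t).deriv
  rw [this]
  exact continuous_const.mul (hfun_cont hp hp2 hM)

lemma Wfun_zero {p κ ρ ε : ℝ} {M : ℝ → ℝ} (hp : 1 < p) (_hp2 : p < 2)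
    (hM : MData κ ρ ε M) {t : ℝ} (ht : ρ ^ 2 ≤ t) : Wfun p ρ M t = 0 := by
  unfold Wfun
  rw [intervalIntegral.integral_symm]
  have : ∫ s in (ρ ^ 2)..t, hfun p M s = ∫ s in (ρ ^ 2)..t, (0 : ℝ) := by
    apply intervalIntegral.integral_congr
    intro s hs
    rw [uIcc_of_le ht] at hs
    unfold hfun
    have h1 : 1 / (p - 1) ≠ 0 := by
      have : 0 < p - 1 := by linarith
      positivity
    show M s ^ (1 / (p - 1)) * |s| ^ ((2 - p) / (2 * (p - 1))) = 0
    rw [hM.zero s hs.1, Real.zero_rpow h1, zero_mul]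
  rw [this]
  simp

variable {N : ℕ}

lemma hasGradientAt_sq (a x : E N) : HasGradientAt (fun x : E N => ‖x - a‖ ^ 2)
    ((2:ℝ) • (x - a)) x := by
  rw [hasGradientAt_iff_hasFDerivAt]
  have h1 : HasFDerivAt (fun x : E N => x - a) (ContinuousLinearMap.id ℝ (E N)) x :=
    (hasFDerivAt_id x).sub_const a
  have h2 := h1.norm_sq
  refine h2.congr_fderiv ?_
  ext y
  simp

lemma barrier_grad {p κ ρ ε : ℝ} {M : ℝ → ℝ} (hp : 1 < p) (hp2 : p < 2) (hM : MData κ ρ ε M)
    (a x : E N) : ∇ (fun x : E N => Wfun p ρ M (‖x - a‖ ^ 2)) x =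
      (-(hfun p M (‖x - a‖ ^ 2))) • (x - a) := by
  have h1 := hasGradientAt_sq a x
  rw [hasGradientAt_iff_hasFDerivAt] at h1
  have h2 := (Wfun_deriv hp hp2 hM (‖x - a‖ ^ 2)).comp_hasFDerivAt x h1
  have h3 : HasGradientAt (fun x : E N => Wfun p ρ M (‖x - a‖ ^ 2))
      ((-(hfun p M (‖x - a‖ ^ 2))) • (x - a)) x := by
    rw [hasGradientAt_iff_hasFDerivAt]
    refine h2.congr_fderiv ?_
    ext y
    simp
    ring
  exact h3.gradient

lemma hfun_sq {p : ℝ} {M : ℝ → ℝ} {t : ℝ} (ht : 0 ≤ t) :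
    hfun p M (t ^ 2) = M (t ^ 2) ^ (1 / (p - 1)) * t ^ ((2 - p) / (p - 1)) := by
  unfold hfun
  rw [abs_of_nonneg (by positivity), ← Real.rpow_natCast t 2, ← Real.rpow_mul ht]
  congr 2
  push_cast
  rw [mul_comm (2:ℝ) (p - 1), ← div_div]
  ring

lemma field_eq {p κ ρ ε : ℝ} {M : ℝ → ℝ} (hp : 1 < p) (hM : MData κ ρ ε M)
    (y : E N) : ‖(-(hfun p M (‖y‖ ^ 2))) • y‖ ^ (p - 2) • ((-(hfun p M (‖y‖ ^ 2))) • y) =
      -(M (‖y‖ ^ 2) • y) := by
  by_cases hy : y = 0
  · simp [hy]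
  have hy' : 0 < ‖y‖ := norm_pos_iff.2 hy
  have hp1 : 0 < p - 1 := by linarith
  by_cases hM0 : M (‖y‖ ^ 2) = 0
  · have : hfun p M (‖y‖ ^ 2) = 0 := by
      unfold hfun
      rw [hM0, Real.zero_rpow (by positivity), zero_mul]
    rw [this, hM0]
    simp
  have hMp : 0 < M (‖y‖ ^ 2) := lt_of_le_of_ne (hM.nonneg _) (Ne.symm hM0)
  rw [norm_smul, norm_neg, Real.norm_of_nonneg (hfun_nonneg hM _), hfun_sq hy'.le, smul_smul]
  rw [← neg_smul]
  congr 1
  set m := M (‖y‖ ^ 2) with hm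
  set t := ‖y‖ with ht
  have h1 : m ^ (1 / (p - 1)) * t ^ ((2 - p) / (p - 1)) * t = (m * t) ^ (1 / (p - 1)) := by
    rw [Real.mul_rpow hMp.le hy'.le, mul_assoc]
    congr 1
    nth_rewrite 2 [← Real.rpow_one t]
    rw [← Real.rpow_add hy']
    congr 1
    field_simp
    ring
  rw [h1, ← Real.rpow_mul (by positivity), Real.mul_rpow hMp.le hy'.le]
  have h2 : m ^ (1 / (p - 1) * (p - 2)) * m ^ (1 / (p - 1)) = m := by
    rw [← Real.rpow_add hMp]
    have : 1 / (p - 1) * (p - 2) + 1 / (p - 1) = 1 := by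
      field_simp
      ring
    rw [this, Real.rpow_one]
  have h3 : t ^ (1 / (p - 1) * (p - 2)) * t ^ ((2 - p) / (p - 1)) = 1 := by
    rw [← Real.rpow_add hy']
    have : 1 / (p - 1) * (p - 2) + (2 - p) / (p - 1) = 0 := by
      field_simp
      ring
    rw [this, Real.rpow_zero]
  calc _ = -((m ^ (1 / (p - 1) * (p - 2)) * m ^ (1 / (p - 1))) *
        (t ^ (1 / (p - 1) * (p - 2)) * t ^ ((2 - p) / (p - 1)))) := by ring
    _ = -m := by rw [h2, h3, mul_one]

theorem barr_thm (hDIV : S_DIV) : S_BARR := by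
  intro N p κ ρ hN hp hp2 hκ hρ
  have hκ0 : 0 < κ := by linarith
  have hp1 : 0 < p - 1 := by linarith
  refine ⟨1 / 2, by norm_num, ρ / 4, by positivity, by linarith, ?_⟩
  intro a ε hε
  obtain ⟨M, hM⟩ := exists_M κ ρ ε hκ0 hρ hε
  set v : E N → ℝ := fun x => Wfun p ρ M (‖x - a‖ ^ 2) with hv
  have hzero : ∀ x, x ∉ closedBall a ρ → v x = 0 := by
    intro x hx
    rw [mem_closedBall, dist_eq_norm] at hx
    push Not at hx
    exact Wfun_zero hp hp2 hM (by gcongr)
  have hts : tsupport v ⊆ closedBall a ρ := by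
    apply closure_minimal _ isClosed_closedBall
    intro x hx
    by_contra h
    exact hx (hzero x h)
  refine ⟨v, ?_, ?_, hts, ?_, ?_⟩
  · exact (Wfun_c1 hp hp2 hM).comp ((contDiff_norm_sq ℝ).comp (contDiff_id.sub contDiff_const))
  · exact HasCompactSupport.intro (isCompact_closedBall a ρ) hzero
  · intro φ hφ hφc hφ0
    have h1 : ∀ x, ‖∇ v x‖ ^ (p - 2) * ⟪∇ v x, ∇ φ x⟫ = -(M (‖x - a‖ ^ 2) * ⟪x - a, ∇ φ x⟫) := by
      intro x
      have h2 := field_eq hp hM (x - a)
      rw [← barrier_grad hp hp2 hM a x] at h2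
      rw [← real_inner_smul_left, h2, inner_neg_left, real_inner_smul_left]
    simp_rw [h1]
    rw [integral_neg, hDIV N M a φ hM.c1 hφ hφc, ← integral_indicator measurableSet_ball]
    have hgc : Continuous (fun x : E N => ‖x - a‖ ^ 2) := by fun_prop
    have hdM : Continuous (deriv M) := hM.c1.continuous_deriv le_rfl
    have hMc := hM.c1.continuous
    have hφcont := hφ.continuous
    have hi1 : Integrable (fun x : E N => ((N:ℝ) * M (‖x - a‖ ^ 2) +
        2 * ‖x - a‖ ^ 2 * deriv M (‖x - a‖ ^ 2)) * φ x) := by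
      apply Continuous.integrable_of_hasCompactSupport
      · apply Continuous.mul _ hφcont
        apply Continuous.add
        · exact continuous_const.mul (hMc.comp hgc)
        · exact (continuous_const.mul hgc).mul (hdM.comp hgc)
      · exact hφc.mul_left
    have hi2 : Integrable (fun x : E N => (N:ℝ) * (‖x - a‖ ^ 2 + ε ^ 2) ^ (-κ) * φ x) := by
      apply Continuous.integrable_of_hasCompactSupport
      · apply Continuous.mul _ hφcont
        apply continuous_const.mul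
        apply Continuous.rpow_const (by fun_prop)
        intro x
        left
        positivity
      · exact hφc.mul_left
    apply integral_mono hi1 (hi2.indicator measurableSet_ball)
    intro x
    have hanti : 2 * ‖x - a‖ ^ 2 * deriv M (‖x - a‖ ^ 2) ≤ 0 := by
      rcases (sq_nonneg ‖x - a‖).eq_or_lt with h | h
      · rw [← h]; simp
      · exact mul_nonpos_of_nonneg_of_nonpos (by positivity) (hM.anti _ h)
    by_cases hx : x ∈ ball a ρ
    · rw [indicator_of_mem hx]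
      apply mul_le_mul_of_nonneg_right _ (hφ0 x)
      have := hM.le (‖x - a‖ ^ 2) (by positivity)
      have h3 : (N:ℝ) * M (‖x - a‖ ^ 2) ≤ (N:ℝ) * (‖x - a‖ ^ 2 + ε ^ 2) ^ (-κ) := by gcongr
      linarith
    · rw [indicator_of_notMem hx]
      rw [mem_ball, dist_eq_norm] at hx
      push Not at hx
      have h3 : M (‖x - a‖ ^ 2) = 0 := hM.zero _ (by gcongr)
      show ((N:ℝ) * M (‖x - a‖ ^ 2) + 2 * ‖x - a‖ ^ 2 * deriv M (‖x - a‖ ^ 2)) * φ x ≤ 0
      rw [h3, mul_zero, zero_add]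
      exact mul_nonpos_of_nonpos_of_nonneg hanti (hφ0 x)
  · intro x hx
    rw [mem_ball, dist_eq_norm] at hx
    set t := ‖x - a‖ with ht
    have ht0 : 0 ≤ t := norm_nonneg _
    show _ ≤ Wfun p ρ M (t ^ 2)
    have ht2 : t ^ 2 ≤ ρ ^ 2 / 16 := by nlinarith
    have hc := hfun_cont hp hp2 hM
    have h1 : ∫ s in t ^ 2..2 * t ^ 2, hfun p M s ≤ ∫ s in t ^ 2..ρ ^ 2, hfun p M s := by
      rw [← intervalIntegral.integral_add_adjacent_intervals (hc.intervalIntegrable (t ^ 2) (2 * t ^ 2))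
        (hc.intervalIntegrable (2 * t ^ 2) (ρ ^ 2))]
      have : 0 ≤ ∫ s in 2 * t ^ 2..ρ ^ 2, hfun p M s := by
        apply intervalIntegral.integral_nonneg
        · nlinarith
        · intro s _
          exact hfun_nonneg hM s
      linarith
    have he : 0 ≤ (2 - p) / (2 * (p - 1)) := by
      apply div_nonneg <;> nlinarith
    have h2 : t ^ 2 * ((2 * t ^ 2 + ε ^ 2) ^ (-(κ / (p - 1))) *
        (t ^ 2) ^ ((2 - p) / (2 * (p - 1)))) ≤ ∫ s in t ^ 2..2 * t ^ 2, hfun p M s := by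
      have h3 : ∫ s in t ^ 2..2 * t ^ 2, ((2 * t ^ 2 + ε ^ 2) ^ (-(κ / (p - 1))) *
          (t ^ 2) ^ ((2 - p) / (2 * (p - 1)))) ≤ ∫ s in t ^ 2..2 * t ^ 2, hfun p M s := by
        apply intervalIntegral.integral_mono_on (by nlinarith)
          (intervalIntegrable_const) (hc.intervalIntegrable _ _)
        intro s hs
        unfold hfun
        have hs0 : 0 ≤ s := le_trans (by positivity) hs.1
        rw [hM.eq s hs0 (by nlinarith [hs.2]), abs_of_nonneg hs0,
          ← Real.rpow_mul (by positivity)]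
        apply mul_le_mul
        · rw [show -κ * (1 / (p - 1)) = -(κ / (p - 1)) by ring, Real.rpow_neg (by positivity),
            Real.rpow_neg (by positivity)]
          have : 0 < κ / (p - 1) := by positivity
          have h4 := hs.2
          gcongr
        · exact Real.rpow_le_rpow (by positivity) hs.1 he
        · positivity
        · positivity
      rw [intervalIntegral.integral_const, smul_eq_mul] at h3
      refine le_trans (le_of_eq ?_) h3
      ring
    have h5 : t ^ (p / (p - 1)) = t ^ 2 * (t ^ 2) ^ ((2 - p) / (2 * (p - 1))) := by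
      rcases ht0.eq_or_lt with h | h
      · rw [← h]
        rw [Real.zero_rpow (by positivity)]
        simp
      · rw [← Real.rpow_natCast t 2, ← Real.rpow_mul h.le, ← Real.rpow_add h]
        congr 1
        push_cast
        field_simp
        ring
    unfold Wfun
    rw [h5]
    have h6 := h2.trans h1
    calc 1 / 2 * ((2 * t ^ 2 + ε ^ 2) ^ (-(κ / (p - 1))) *
          (t ^ 2 * (t ^ 2) ^ ((2 - p) / (2 * (p - 1)))))
        = 1 / 2 * (t ^ 2 * ((2 * t ^ 2 + ε ^ 2) ^ (-(κ / (p - 1))) *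
        (t ^ 2) ^ ((2 - p) / (2 * (p - 1))))) := by ring
      _ ≤ _ := by gcongr

end Helper35.SDim
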