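import Pool.Agent.Helper19.SDim.Spec

/-!
# LOWER: the lower bound
-/

noncomputable section

open MeasureTheory Filter Set Metric
open scoped Topology ENNReal NNReal RealInnerProductSpace ContDiff Gradient

namespace Helper35.SDim

open Helper19.SDim

variable {N : ℕ}

lemma W0_toW1 {Ω : Set (E N)} {p : ℝ} {u : E N → ℝ} {G : E N → E N} (h : W0 Ω p u G) :
    W1 Ω p u G := by
  obtain ⟨hu, hG, φ, hφ, h1, h2⟩ := h
  exact ⟨φ, ⟨fun n => ⟨(hφ n).1.of_le (by exact_mod_cast le_top), (hφ n).2.1, (hφ n).2.2⟩,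
    hu, hG, h1, h2⟩⟩

lemma grad_zero_of_notMem {φ : E N → ℝ} {x : E N} (h : x ∉ tsupport φ) : ∇ φ x = 0 := by
  unfold gradient
  rw [fderiv_of_notMem_tsupport (𝕜 := ℝ) h]
  simp

lemma lower_memLp {A Ω : Set (E N)} {x₀ : E N} {κ p' : ℝ} (hp' : 0 < p')
    (hΩ : Bornology.IsBounded Ω)
    (hA : ∀ R : ℝ, ∫⁻ x in ball x₀ R, ENNReal.ofReal ((infDist x A) ^ (-(2 * κ * p'))) < ⊤) :
    MemLp (fun x => (N:ℝ) * (infDist x A) ^ (-(2 * κ))) (ENNReal.ofReal p') (volume.restrict Ω) := by
  obtain ⟨R, hR⟩ := hΩ.subset_ball x₀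
  have hmeas : Measurable (fun x => (infDist x A) ^ (-(2 * κ))) :=
    (continuous_infDist_pt A).measurable.pow_const _
  have hmeas2 : Measurable (fun x => (infDist x A) ^ (-(2 * κ * p'))) :=
    (continuous_infDist_pt A).measurable.pow_const _
  apply MemLp.const_mul
  rw [← integrable_norm_rpow_iff hmeas.aestronglyMeasurable (by simpa using hp')
    ENNReal.ofReal_ne_top, ENNReal.toReal_ofReal hp'.le]
  have h1 : ∀ x, ‖(infDist x A) ^ (-(2 * κ))‖ ^ p' = (infDist x A) ^ (-(2 * κ * p')) := by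
    intro x
    rw [Real.norm_of_nonneg (Real.rpow_nonneg infDist_nonneg _), ← Real.rpow_mul infDist_nonneg]
    congr 1
    ring
  simp_rw [h1]
  refine IntegrableOn.mono_set ?_ hR
  refine ⟨hmeas2.aestronglyMeasurable, ?_⟩
  rw [hasFiniteIntegral_iff_ofReal (ae_of_all _ fun x => Real.rpow_nonneg infDist_nonneg _)]
  exact hA R

theorem lower_thm (hCANTOR : S_CANTOR) (hEXIST : S_EXIST) (hCOMP : S_COMP) (hBARR : S_BARR) :
    S_LOWER := by
  intro N p s Ω hp hp2 hs hsN hΩo hΩb hΩn
  have hp1 : 0 < p - 1 := by linarith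
  set p' := p / (p - 1) with hp'
  have hp'0 : 0 < p' := by positivity
  have hp'1 : 1 < p' := by
    rw [hp', lt_div_iff₀ hp1]; linarith
  have hpp : 4 ≤ p * p' := by
    rw [hp', ← mul_div_assoc, le_div_iff₀ hp1]
    nlinarith [sq_nonneg (p - 2)]
  have hN2 : 2 ≤ N := by
    have : (4:ℝ) < N := by linarith
    have : 4 < N := by exact_mod_cast this
    omega
  have hN1 : 1 ≤ N := by omega
  obtain ⟨x₀, hx₀⟩ := hΩn
  obtain ⟨ρ₀, hρ₀, hball⟩ := Metric.isOpen_iff.1 hΩo x₀ hx₀
  set ρ := ρ₀ / 3 with hρd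
  have hρ : 0 < ρ := by positivity
  have hcb : closedBall x₀ (2 * ρ) ⊆ Ω := by
    refine (closedBall_subset_ball ?_).trans hball
    linarith
  -- κ
  set η := (N - p * p' - s) / (4 * p') with hη
  have hη0 : 0 < η := by
    apply div_pos _ (by positivity)
    linarith
  set κ := p / 2 + η with hκd
  have hκ : p < 2 * κ := by linarith
  have hκ0 : 0 < κ := by linarith
  have hb : s + 2 * κ * p' < N := by
    have h1 : 2 * κ * p' = p * p' + (N - p * p' - s) / 2 := by
      rw [hκd, hη]
      field_simp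
      ring
    rw [h1]
    linarith
  obtain ⟨A, hAc, hAn, hAs, hAv, hAd, hAi⟩ := hCANTOR N s (2 * κ * p') ρ x₀ hN1 hs
    (by positivity) hb hρ
  set F : E N → ℝ := fun x => (N:ℝ) * (infDist x A) ^ (-(2 * κ)) with hF
  have hFm : MemLp F (ENNReal.ofReal p') (volume.restrict Ω) := lower_memLp hp'0 hΩb hAi
  have hF0 : ∀ x, 0 ≤ F x := fun x => by
    have := Real.rpow_nonneg (infDist_nonneg (x := x) (s := A)) (-(2 * κ))
    positivity
  have hΩfin : IsFiniteMeasure (volume.restrict Ω) := ⟨by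
    rw [Measure.restrict_apply_univ]; exact hΩb.measure_lt_top⟩
  have hFi : IntegrableOn F Ω := by
    have : MemLp F 1 (volume.restrict Ω) := hFm.mono_exponent (by
      rw [← ENNReal.ofReal_one]; exact ENNReal.ofReal_le_ofReal hp'1.le)
    exact memLp_one_iff_integrable.1 this
  obtain ⟨u, G, hu, hEq⟩ := hEXIST N p Ω F hN2 hp hp2 hΩo hΩb hFm
  refine ⟨u, ⟨G, F, hu, hFm, hEq⟩, hAd.trans (dimH_mono ?_)⟩
  obtain ⟨c, hc, ρ', hρ', hρρ, hbarr⟩ := hBARR N p κ ρ hN1 hp hp2 hκ hρ
  intro a ha
  have haΩ : a ∈ Ω := hcb (closedBall_subset_closedBall (by linarith) (hAs ha))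
  have hcba : closedBall a ρ ⊆ Ω := by
    refine subset_trans ?_ hcb
    apply closedBall_subset_closedBall'
    have := hAs ha
    rw [mem_closedBall] at this
    linarith
  have hbΩ : ball a ρ ⊆ Ω := ball_subset_closedBall.trans hcba
  -- comparison
  have hkey : ∀ ε : ℝ, 0 < ε → ∀ᵐ x ∂(volume.restrict Ω), x ∈ ball a ρ' →
      c * ((2 * ‖x - a‖ ^ 2 + ε ^ 2) ^ (-(κ / (p - 1))) * ‖x - a‖ ^ (p / (p - 1))) ≤ u x := by
    intro ε hε
    obtain ⟨v, hv1, hvc, hvs, hvsub, hvl⟩ := hbarr a ε hε
    have hC1c : C1c Ω v := ⟨hv1, hvc, hvs.trans hcba⟩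
    have hcomp := hCOMP N p Ω u G F v hN2 hp hp2 hΩo hΩb (W0_toW1 hu) hFm hEq hC1c ?_
    · filter_upwards [hcomp] with x hx hxb
      exact (hvl x hxb).trans hx
    · intro φ hφ hφ0
      have h1 : ∫ x in Ω, ‖∇ v x‖ ^ (p - 2) * ⟪∇ v x, ∇ φ x⟫ =
          ∫ x, ‖∇ v x‖ ^ (p - 2) * ⟪∇ v x, ∇ φ x⟫ := by
        apply setIntegral_eq_integral_of_forall_compl_eq_zero
        intro x hx
        rw [grad_zero_of_notMem (fun h => hx (hφ.2.2 h)), inner_zero_right, mul_zero]
      rw [h1]
      refine (hvsub φ hφ.1 hφ.2.1 hφ0).trans ?_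
      have hFφ : IntegrableOn (fun x => F x * φ x) Ω := by
        obtain ⟨L, hL⟩ := hφ.1.continuous.bounded_above_of_compact_support hφ.2.1
        exact Integrable.mul_bdd (c := L) hFi hφ.1.continuous.aestronglyMeasurable
          (ae_of_all _ hL)
      calc ∫ x in ball a ρ, N * (‖x - a‖ ^ 2 + ε ^ 2) ^ (-κ) * φ x
          ≤ ∫ x in ball a ρ, F x * φ x := by
            apply integral_mono_ae
            · apply IntegrableOn.mono_set _ (ball_subset_closedBall (x := a) (ε := ρ))
              apply ContinuousOn.integrableOn_compact (isCompact_closedBall a ρ)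
              apply Continuous.continuousOn
              apply Continuous.mul _ hφ.1.continuous
              apply continuous_const.mul
              apply Continuous.rpow_const (by fun_prop)
              intro x
              left
              positivity
            · exact hFφ.mono_set hbΩ
            · have hA0 : ∀ᵐ x ∂(volume.restrict (ball a ρ)), x ∉ A := by
                apply ae_restrict_of_ae
                rw [ae_iff]
                simpa using hAv
              filter_upwards [hA0] with x hx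
              apply mul_le_mul_of_nonneg_right _ (hφ0 x)
              show (N:ℝ) * _ ≤ (N:ℝ) * _
              gcongr ?_ * ?_
              have hd0 : 0 < infDist x A := by
                rw [← hAc.isClosed.notMem_iff_infDist_pos hAn]
                exact hx
              have hd1 : infDist x A ≤ ‖x - a‖ := by
                rw [← dist_eq_norm]
                exact infDist_le_dist_of_mem ha
              have h2 : (infDist x A) ^ (-(2 * κ)) = ((infDist x A) ^ 2) ^ (-κ) := by
                rw [← Real.rpow_natCast, ← Real.rpow_mul hd0.le]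
                congr 1
                push_cast
                ring
              rw [h2, Real.rpow_neg (by positivity), Real.rpow_neg (by positivity)]
              have h3 : (infDist x A) ^ 2 ≤ ‖x - a‖ ^ 2 + ε ^ 2 := by
                have : (infDist x A) ^ 2 ≤ ‖x - a‖ ^ 2 := by gcongr
                nlinarith [sq_nonneg ε]
              gcongr
        _ ≤ ∫ x in Ω, F x * φ x := by
            apply setIntegral_mono_set hFφ
            · exact ae_of_all _ fun x => mul_nonneg (hF0 x) (hφ0 x)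
            · exact ae_of_all _ hbΩ
  -- conclusion
  have hall : ∀ᵐ x ∂(volume.restrict Ω), ∀ n : ℕ, x ∈ ball a ρ' →
      c * ((2 * ‖x - a‖ ^ 2 + (1 / ((n:ℝ) + 1)) ^ 2) ^ (-(κ / (p - 1))) *
        ‖x - a‖ ^ (p / (p - 1))) ≤ u x := by
    rw [ae_all_iff]
    intro n
    exact hkey _ (by positivity)
  refine ⟨haΩ, c * 2 ^ (-(κ / (p - 1))), (2 * κ - p) / (p - 1), ρ', by positivity,
    div_pos (by linarith) hp1, hρ', (ball_subset_ball hρρ).trans hbΩ, ?_⟩
  have hsub : ball a ρ' ⊆ Ω := (ball_subset_ball hρρ).trans hbΩ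
  have hall' := ae_restrict_of_ae_restrict_of_subset hsub hall
  filter_upwards [hall', ae_restrict_mem measurableSet_ball] with x hx hxb
  rcases eq_or_ne x a with rfl | hxa
  · have h1 := hx 0 hxb
    rw [sub_self, norm_zero, Real.zero_rpow (by positivity), mul_zero, mul_zero] at h1
    have h2 : -((2 * κ - p) / (p - 1)) ≠ 0 := by
      have : 0 < (2 * κ - p) / (p - 1) := div_pos (by linarith) hp1
      linarith
    rw [sub_self, norm_zero, Real.zero_rpow h2, mul_zero]
    exact h1
  have hy : 0 < ‖x - a‖ := norm_pos_iff.2 (sub_ne_zero.2 hxa)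
  have hlim : Tendsto (fun n : ℕ => c * ((2 * ‖x - a‖ ^ 2 + (1 / ((n:ℝ) + 1)) ^ 2) ^
      (-(κ / (p - 1))) * ‖x - a‖ ^ (p / (p - 1)))) atTop
      (𝓝 (c * ((2 * ‖x - a‖ ^ 2 + 0 ^ 2) ^ (-(κ / (p - 1))) * ‖x - a‖ ^ (p / (p - 1))))) := by
    apply Tendsto.const_mul
    apply Tendsto.mul_const
    apply Tendsto.rpow_const
    · exact tendsto_const_nhds.add (tendsto_one_div_add_atTop_nhds_zero_nat.pow 2)
    · left
      positivity
  have h3 := le_of_tendsto hlim (Eventually.of_forall fun n => hx n hxb)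
  refine le_trans (le_of_eq ?_) h3
  rw [zero_pow two_ne_zero, add_zero, Real.mul_rpow (by norm_num) (by positivity),
    ← Real.rpow_natCast ‖x - a‖ 2, ← Real.rpow_mul hy.le, mul_assoc, mul_assoc,
    ← Real.rpow_add hy]
  congr 3
  push_cast
  field_simp
  ring

end Helper35.SDim
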