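import Pool.Agent.Helper19.SDim.Spec

/-!
# MIN: existence of a minimiser of the energy
-/

noncomputable section

open MeasureTheory Filter Set Metric
open scoped Topology ENNReal NNReal RealInnerProductSpace ContDiff Gradient

namespace Helper35.SDim

open Helper19.SDim

namespace MinEx

section general

variable {α F' : Type*} [MeasurableSpace α] {μ : Measure α} [NormedAddCommGroup F']

lemma integral_rpow_eq {p : ℝ} (hp : 0 < p) {f : α → F'} (hf : MemLp f (ENNReal.ofReal p) μ) :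
    ∫ x, ‖f x‖ ^ p ∂μ = (eLpNorm f (ENNReal.ofReal p) μ).toReal ^ p := by
  have h0 : 0 ≤ ∫ x, ‖f x‖ ^ p ∂μ := integral_nonneg fun x => by positivity
  rw [hf.eLpNorm_eq_integral_rpow_norm (by simpa using hp) ENNReal.ofReal_ne_top,
    ENNReal.toReal_ofReal hp.le, ENNReal.toReal_ofReal (by positivity),
    ← Real.rpow_mul h0, inv_mul_cancel₀ hp.ne', Real.rpow_one]

lemma tendsto_norm_of {p : ℝ≥0∞} [Fact (1 ≤ p)] {f : ℕ → α → F'} {g : α → F'}
    (hf : ∀ n, MemLp (f n) p μ) (hg : MemLp g p μ)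
    (h : Tendsto (fun n => eLpNorm (fun x => f n x - g x) p μ) atTop (𝓝 0)) :
    Tendsto (fun n => (eLpNorm (f n) p μ).toReal) atTop (𝓝 (eLpNorm g p μ).toReal) := by
  have h1 := (Lp.tendsto_Lp_iff_tendsto_eLpNorm'' f hf g hg).2 h
  have h2 := h1.norm
  simpa only [Lp.norm_toLp] using h2

lemma holder_bound {p p' : ℝ} (hpq : p'.HolderConjugate p) {F g : α → ℝ}
    (hF : MemLp F (ENNReal.ofReal p') μ) (hg : MemLp g (ENNReal.ofReal p) μ) :
    |∫ x, F x * g x ∂μ| ≤ (∫ x, ‖F x‖ ^ p' ∂μ) ^ (1 / p') *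
      (eLpNorm g (ENNReal.ofReal p) μ).toReal := by
  have hp : 0 < p := hpq.symm.pos
  calc |∫ x, F x * g x ∂μ| ≤ ∫ x, |F x * g x| ∂μ := abs_integral_le_integral_abs
    _ = ∫ x, ‖F x‖ * ‖g x‖ ∂μ := by
        congr 1; ext x; rw [abs_mul]; rfl
    _ ≤ (∫ x, ‖F x‖ ^ p' ∂μ) ^ (1 / p') * (∫ x, ‖g x‖ ^ p ∂μ) ^ (1 / p) :=
        integral_mul_norm_le_Lp_mul_Lq hpq hF hg
    _ = _ := by
        rw [integral_rpow_eq hp hg, ← Real.rpow_mul ENNReal.toReal_nonneg,
          mul_one_div_cancel hp.ne', Real.rpow_one]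

/-- Cauchy criterion in `L^p`. -/
lemma exists_limit {p : ℝ} (hp : 1 ≤ p) [CompleteSpace F'] {f : ℕ → α → F'}
    (hf : ∀ n, MemLp (f n) (ENNReal.ofReal p) μ)
    (h : ∀ η > 0, ∃ n₀, ∀ n ≥ n₀, ∀ k ≥ n₀,
      (eLpNorm (fun x => f n x - f k x) (ENNReal.ofReal p) μ).toReal < η) :
    ∃ g, MemLp g (ENNReal.ofReal p) μ ∧
      Tendsto (fun n => eLpNorm (fun x => f n x - g x) (ENNReal.ofReal p) μ) atTop (𝓝 0) := by
  have : Fact (1 ≤ ENNReal.ofReal p) := ⟨by
    rw [← ENNReal.ofReal_one]; exact ENNReal.ofReal_le_ofReal hp⟩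
  have hC : CauchySeq (fun n => (hf n).toLp (f n)) := by
    rw [Metric.cauchySeq_iff]
    intro η hη
    obtain ⟨n₀, hn₀⟩ := h η hη
    refine ⟨n₀, fun n hn k hk => ?_⟩
    rw [dist_eq_norm, ← MemLp.toLp_sub, Lp.norm_toLp]
    exact hn₀ n hn k hk
  obtain ⟨g, hg⟩ := cauchySeq_tendsto_of_complete hC
  refine ⟨g, Lp.memLp g, ?_⟩
  rw [← Lp.toLp_coeFn g (Lp.memLp g)] at hg
  exact (Lp.tendsto_Lp_iff_tendsto_eLpNorm'' f hf g (Lp.memLp g)).1 hg

end general

variable {N : ℕ}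

lemma grad_cont {f : E N → ℝ} (hf : ContDiff ℝ ∞ f) : Continuous (fun x => ∇ f x) := by
  unfold gradient
  have h : Continuous (fun x => fderiv ℝ f x) := hf.continuous_fderiv (by simp)
  exact (InnerProductSpace.toDual ℝ (E N)).symm.continuous.comp h

lemma grad_supp {f : E N → ℝ} (hf : HasCompactSupport f) :
    HasCompactSupport (fun x => ∇ f x) := by
  have h : HasCompactSupport (fderiv ℝ f) := hf.fderiv (𝕜 := ℝ)
  exact h.comp_left (g := (InnerProductSpace.toDual ℝ (E N)).symm) (by simp)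

lemma grad_lin {f g : E N → ℝ} (hf : ContDiff ℝ ∞ f) (hg : ContDiff ℝ ∞ g) (s t : ℝ) (x : E N) :
    ∇ (fun y => s * f y + t * g y) x = s • ∇ f x + t • ∇ g x := by
  have hf' : DifferentiableAt ℝ f x := hf.differentiable (by simp) x
  have hg' : DifferentiableAt ℝ g x := hg.differentiable (by simp) x
  unfold gradient
  have h1 : fderiv ℝ (fun y => s * f y + t * g y) x = s • fderiv ℝ f x + t • fderiv ℝ g x :=
    ((hf'.hasFDerivAt.const_mul s).add (hg'.hasFDerivAt.const_mul t)).fderiv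
  rw [h1, map_add, map_smulₛₗ, map_smulₛₗ]
  simp

lemma test_lin {Ω : Set (E N)} {φ ψ : E N → ℝ} (h : Test Ω φ) (h' : Test Ω ψ) (s t : ℝ) :
    Test Ω (fun x => s * φ x + t * ψ x) := by
  refine ⟨(contDiff_const.mul h.1).add (contDiff_const.mul h'.1), ?_, ?_⟩
  · have h1 : HasCompactSupport (fun x => s * φ x) :=
      h.2.1.comp_left (g := fun y : ℝ => s * y) (by simp)
    have h2 : HasCompactSupport (fun x => t * ψ x) :=
      h'.2.1.comp_left (g := fun y : ℝ => t * y) (by simp)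
    exact h1.add h2
  · have h3 : tsupport (fun x => s * φ x + t * ψ x) ⊆ tsupport φ ∪ tsupport ψ := by
      rw [tsupport, tsupport, tsupport, ← closure_union]
      apply closure_mono
      intro x hx
      simp only [Function.mem_support, mem_union] at hx ⊢
      by_contra hc
      push Not at hc
      apply hx
      rw [hc.1, hc.2]; simp
    exact h3.trans (union_subset h.2.2 h'.2.2)

lemma test_zero (Ω : Set (E N)) : Test Ω (fun _ => 0) := by
  refine ⟨contDiff_const, HasCompactSupport.zero, ?_⟩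
  have : tsupport (fun _ : E N => (0:ℝ)) = ∅ := by simp [tsupport, Function.support]
  rw [this]; exact empty_subset _

lemma test_memLp {Ω : Set (E N)} {φ : E N → ℝ} (h : Test Ω φ) (P : ℝ≥0∞) :
    MemLp φ P (volume.restrict Ω) :=
  (h.1.continuous.memLp_of_hasCompactSupport h.2.1).restrict Ω

lemma test_grad_memLp {Ω : Set (E N)} {φ : E N → ℝ} (h : Test Ω φ) (P : ℝ≥0∞) :
    MemLp (fun x => ∇ φ x) P (volume.restrict Ω) :=
  ((grad_cont h.1).memLp_of_hasCompactSupport (grad_supp h.2.1)).restrict Ω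

lemma test_W1 {Ω : Set (E N)} {φ : E N → ℝ} (h : Test Ω φ) (p : ℝ) :
    W1 Ω p φ (fun x => ∇ φ x) := by
  refine ⟨fun _ => φ, ⟨fun _ => ⟨h.1.of_le (by exact_mod_cast le_top), h.2.1, h.2.2⟩,
    test_memLp h _, test_grad_memLp h _, ?_, ?_⟩⟩
  · simp
  · simp

/-- pointwise splitting -/
lemma split_le {p θ : ℝ} (hp : 0 < p) (hp2 : p < 2) (hθ : 0 < θ) {a b : E N} :
    ‖a - b‖ ^ p ≤ θ ^ p * (‖a‖ + ‖b‖) ^ p +
      θ ^ (p - 2) * (‖a - b‖ ^ 2 * (‖a‖ + ‖b‖) ^ (p - 2)) := by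
  set S := ‖a‖ + ‖b‖ with hS
  set d := ‖a - b‖ with hd
  have hS0 : 0 ≤ S := by positivity
  have hd0 : 0 ≤ d := norm_nonneg _
  have h1 : 0 ≤ θ ^ (p - 2) * (d ^ 2 * S ^ (p - 2)) := by positivity
  rcases le_or_gt d (θ * S) with h | h
  · have h2 : d ^ p ≤ (θ * S) ^ p := Real.rpow_le_rpow hd0 h hp.le
    rw [Real.mul_rpow hθ.le hS0] at h2
    linarith
  · have hSpos : 0 < S := by
      rcases hS0.eq_or_lt with h3 | h3
      · exfalso
        have h4 : d ≤ S := norm_sub_le a b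
        rw [← h3] at h h4
        linarith
      · exact h3
    have hdpos : 0 < d := lt_trans (by positivity) h
    have h5 : d ^ p = d ^ 2 * d ^ (p - 2) := by
      rw [← Real.rpow_natCast, ← Real.rpow_add hdpos]
      congr 1; push_cast; ring
    have h6 : d ^ (p - 2) ≤ (θ * S) ^ (p - 2) :=
      Real.rpow_le_rpow_of_nonpos (by positivity) h.le (by linarith)
    rw [Real.mul_rpow hθ.le hS0] at h6
    have h7 : 0 ≤ θ ^ p * S ^ p := by positivity
    rw [h5]
    calc d ^ 2 * d ^ (p - 2) ≤ d ^ 2 * (θ ^ (p - 2) * S ^ (p - 2)) := by gcongr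
      _ = θ ^ (p - 2) * (d ^ 2 * S ^ (p - 2)) := by ring
      _ ≤ _ := by linarith

lemma sum_rpow_le {p x y : ℝ} (hp : 1 < p) (hp2 : p < 2) (hx : 0 ≤ x) (hy : 0 ≤ y) :
    (x + y) ^ p ≤ 4 * (x ^ p + y ^ p) := by
  have h4 : (2:ℝ) ^ p ≤ 4 := by
    calc (2:ℝ) ^ p ≤ 2 ^ (2:ℝ) := Real.rpow_le_rpow_of_exponent_le (by norm_num) hp2.le
      _ = 4 := by norm_num
  have key : ∀ x y : ℝ, 0 ≤ x → 0 ≤ y → x ≤ y → (x + y) ^ p ≤ 4 * (x ^ p + y ^ p) := by
    intro x y hx hy h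
    have hxp : 0 ≤ x ^ p := by positivity
    have hyp : 0 ≤ y ^ p := by positivity
    calc (x + y) ^ p ≤ (2 * y) ^ p := Real.rpow_le_rpow (by positivity) (by linarith) (by linarith)
      _ = 2 ^ p * y ^ p := Real.mul_rpow (by norm_num) hy
      _ ≤ 4 * y ^ p := by gcongr
      _ ≤ _ := by linarith
  rcases le_total x y with h | h
  · exact key x y hx hy h
  · have := key y x hy hx h
    rw [add_comm y x, add_comm (y ^ p)] at this
    exact this

/-- The energy. -/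
def J (Ω : Set (E N)) (p : ℝ) (F : E N → ℝ) (u : E N → ℝ) (G : E N → E N) : ℝ :=
  1 / p * (∫ x in Ω, ‖G x‖ ^ p) - (∫ x in Ω, F x * u x)

end MinEx

open MinEx

theorem min_thm (hVEC : S_VEC) (hPOIN : S_POIN) : S_MIN := by
  intro N p Ω F hN hp1 hp2 hΩ hΩb hF
  have hvol : volume Ω < ⊤ := hΩb.measure_lt_top
  have : IsFiniteMeasure (volume.restrict Ω) := ⟨by rwa [Measure.restrict_apply_univ]⟩
  have hp0 : 0 < p := by linarith
  have hconj : (p / (p - 1)).HolderConjugate p := by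
    have := (Real.HolderConjugate.conjExponent hp1).symm
    simpa [Real.conjExponent] using this
  set p' := p / (p - 1) with hp'
  have hE1 : Fact ((1 : ℝ≥0∞) ≤ ENNReal.ofReal p) := ⟨by
    rw [← ENNReal.ofReal_one]; exact ENNReal.ofReal_le_ofReal hp1.le⟩
  have hEne : ENNReal.ofReal p ≠ 0 := by
    simp only [ne_eq, ENNReal.ofReal_eq_zero, not_le]; exact hp0
  have hH : ENNReal.HolderTriple (ENNReal.ofReal p') (ENNReal.ofReal p) 1 :=
    hconj.ennrealOfReal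
  have hI : ∀ {V : E N → E N}, MemLp V (ENNReal.ofReal p) (volume.restrict Ω) →
      Integrable (fun x => ‖V x‖ ^ p) (volume.restrict Ω) := by
    intro V hV
    have := hV.integrable_norm_rpow hEne ENNReal.ofReal_ne_top
    simpa [ENNReal.toReal_ofReal hp0.le] using this
  have hIF : ∀ {v : E N → ℝ}, MemLp v (ENNReal.ofReal p) (volume.restrict Ω) →
      Integrable (fun x => F x * v x) (volume.restrict Ω) := fun hv => hF.integrable_mul hv
  obtain ⟨C, hC⟩ := hPOIN N p Ω hN hp1 hp2 hΩb hΩ.measurableSet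
  have hB0 : 0 ≤ (∫ x in Ω, ‖F x‖ ^ p') ^ (1 / p') := by
    apply Real.rpow_nonneg
    exact integral_nonneg fun x => by positivity
  set B := (∫ x in Ω, ‖F x‖ ^ p') ^ (1 / p') with hB
  -- the norm of the gradient
  let A : (E N → ℝ) → ℝ := fun φ =>
    (eLpNorm (fun x => ∇ φ x) (ENNReal.ofReal p) (volume.restrict Ω)).toReal
  have hA0 : ∀ φ, 0 ≤ A φ := fun φ => ENNReal.toReal_nonneg
  have hAp : ∀ φ, Test Ω φ → ∫ x in Ω, ‖∇ φ x‖ ^ p = A φ ^ p := fun φ hφ =>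
    integral_rpow_eq hp0 (test_grad_memLp hφ _)
  have hpoin : ∀ φ, Test Ω φ → (eLpNorm φ (ENNReal.ofReal p) (volume.restrict Ω)).toReal ≤
      C * A φ := by
    intro φ hφ
    have h1 := hC φ _ (test_W1 hφ p)
    have h2 := ENNReal.toReal_mono (ENNReal.mul_ne_top ENNReal.coe_ne_top
      (test_grad_memLp hφ _).eLpNorm_ne_top) h1
    rw [ENNReal.toReal_mul, ENNReal.coe_toReal] at h2
    exact h2
  -- lower bound
  set K := B * C with hK
  have hK0 : 0 ≤ K := by positivity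
  obtain ⟨D, hD⟩ : ∃ D : ℝ, ∀ a : ℝ, 0 ≤ a → K * a ≤ a ^ p / (2 * p) + D := by
    refine ⟨(2 ^ (1 / p) * K) ^ p' / p', fun a ha => ?_⟩
    have h1 := Real.young_inequality_of_nonneg (a := (1 / 2) ^ (1 / p) * a)
      (b := 2 ^ (1 / p) * K) (by positivity) (by positivity) hconj.symm
    have h2 : (1 / 2 : ℝ) ^ (1 / p) * 2 ^ (1 / p) = 1 := by
      rw [← Real.mul_rpow (by norm_num) (by norm_num)]
      norm_num
    have h3 : (1 / 2 : ℝ) ^ (1 / p) * a * (2 ^ (1 / p) * K) = K * a := by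
      calc _ = ((1 / 2 : ℝ) ^ (1 / p) * 2 ^ (1 / p)) * (K * a) := by ring
        _ = _ := by rw [h2, one_mul]
    have h4 : ((1 / 2 : ℝ) ^ (1 / p) * a) ^ p / p = a ^ p / (2 * p) := by
      rw [Real.mul_rpow (by positivity) ha, ← Real.rpow_mul (by norm_num),
        one_div_mul_cancel hp0.ne', Real.rpow_one]
      field_simp
    rw [h3, h4] at h1
    exact h1
  have hJlow : ∀ φ, Test Ω φ → A φ ^ p / (2 * p) - D ≤ J Ω p F φ (fun x => ∇ φ x) := by
    intro φ hφ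
    unfold J
    rw [hAp φ hφ]
    have h1 := holder_bound hconj hF (test_memLp hφ (ENNReal.ofReal p))
    have h2 := hpoin φ hφ
    have h3 : ∫ x in Ω, F x * φ x ≤ K * A φ := by
      calc _ ≤ |∫ x in Ω, F x * φ x| := le_abs_self _
        _ ≤ B * (eLpNorm φ (ENNReal.ofReal p) (volume.restrict Ω)).toReal := h1
        _ ≤ B * (C * A φ) := by gcongr
        _ = _ := by rw [hK]; ring
    have h4 := hD (A φ) (hA0 φ)
    have h5 : 1 / p * A φ ^ p = A φ ^ p / (2 * p) + A φ ^ p / (2 * p) := by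
      field_simp
      ring
    linarith
  -- the infimum
  set S : Set ℝ := {j | ∃ φ, Test Ω φ ∧ j = J Ω p F φ (fun x => ∇ φ x)} with hS
  have hSne : S.Nonempty := ⟨_, fun _ => 0, test_zero Ω, rfl⟩
  have hSb : BddBelow S := by
    refine ⟨-D, ?_⟩
    rintro j ⟨φ, hφ, rfl⟩
    have h1 := hJlow φ hφ
    have h2 : 0 ≤ A φ ^ p / (2 * p) := by
      have := hA0 φ
      positivity
    linarith
  set m := sInf S with hm
  have hmle : ∀ φ, Test Ω φ → m ≤ J Ω p F φ (fun x => ∇ φ x) := fun φ hφ =>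
    csInf_le hSb ⟨φ, hφ, rfl⟩
  -- continuity
  have hcont : ∀ (φ : ℕ → E N → ℝ) (u : E N → ℝ) (G : E N → E N), (∀ n, Test Ω (φ n)) →
      MemLp u (ENNReal.ofReal p) (volume.restrict Ω) →
      MemLp G (ENNReal.ofReal p) (volume.restrict Ω) →
      Tendsto (fun n => eLpNorm (fun x => φ n x - u x) (ENNReal.ofReal p) (volume.restrict Ω))
        atTop (𝓝 0) →
      Tendsto (fun n => eLpNorm (fun x => ∇ (φ n) x - G x) (ENNReal.ofReal p)
        (volume.restrict Ω)) atTop (𝓝 0) →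
      Tendsto (fun n => J Ω p F (φ n) (fun x => ∇ (φ n) x)) atTop (𝓝 (J Ω p F u G)) := by
    intro φ u G hφ hu hG htu htG
    unfold J
    apply Tendsto.sub
    · apply Tendsto.const_mul
      have h1 : (fun n => ∫ x in Ω, ‖∇ (φ n) x‖ ^ p) = fun n => A (φ n) ^ p :=
        funext fun n => hAp _ (hφ n)
      rw [h1, integral_rpow_eq hp0 hG]
      apply Tendsto.rpow_const
      · exact tendsto_norm_of (fun n => test_grad_memLp (hφ n) _) hG htG
      · right; exact hp0.le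
    · have h1 : ∀ n, |(∫ x in Ω, F x * φ n x) - ∫ x in Ω, F x * u x| ≤
          B * (eLpNorm (fun x => φ n x - u x) (ENNReal.ofReal p) (volume.restrict Ω)).toReal := by
        intro n
        have hφn := test_memLp (hφ n) (ENNReal.ofReal p)
        rw [← integral_sub (hIF hφn) (hIF hu)]
        have h2 := holder_bound hconj hF (hφn.sub hu)
        refine le_trans (le_of_eq ?_) h2
        congr 2
        ext x
        simp only [Pi.sub_apply]
        ring
      rw [tendsto_iff_dist_tendsto_zero]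
      apply squeeze_zero (g := fun n => B * (eLpNorm (fun x => φ n x - u x) (ENNReal.ofReal p)
        (volume.restrict Ω)).toReal) (fun n => dist_nonneg)
        (fun n => by rw [Real.dist_eq]; exact h1 n)
      have h3 : Tendsto (fun n => (eLpNorm (fun x => φ n x - u x) (ENNReal.ofReal p)
          (volume.restrict Ω)).toReal) atTop (𝓝 0) := by
        rw [← ENNReal.toReal_zero]
        exact (ENNReal.tendsto_toReal ENNReal.zero_ne_top).comp htu
      simpa using h3.const_mul B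
  -- minimising sequence
  have hseq : ∀ n : ℕ, ∃ φ, Test Ω φ ∧ J Ω p F φ (fun x => ∇ φ x) < m + 1 / ((n:ℝ) + 1) := by
    intro n
    obtain ⟨j, ⟨φ, hφ, rfl⟩, hj⟩ := Real.lt_sInf_add_pos hSne
      (show (0:ℝ) < 1 / ((n:ℝ) + 1) by positivity)
    exact ⟨φ, hφ, hj⟩
  choose φ hφ hφJ using hseq
  obtain ⟨c, hc, hvec⟩ := (hVEC N p hp1 hp2).1
  -- the Cauchy estimate
  have hn1 : ∀ n : ℕ, 1 / ((n:ℝ) + 1) ≤ 1 := by
    intro n
    rw [div_le_one (by positivity)]
    have : (0:ℝ) ≤ n := Nat.cast_nonneg n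
    linarith
  have hAb : ∀ n, A (φ n) ^ p ≤ 2 * p * (m + 1 + D) := by
    intro n
    have h1 := hJlow _ (hφ n)
    have h2 := hφJ n
    have h3 := hn1 n
    have h4 : A (φ n) ^ p / (2 * p) ≤ m + 1 + D := by linarith
    rw [div_le_iff₀ (by positivity)] at h4
    linarith
  have hmD : 0 ≤ m + 1 + D := by
    have h1 := hAb 0
    have h2 : 0 ≤ A (φ 0) ^ p := Real.rpow_nonneg (hA0 _) _
    by_contra h
    push Not at h
    have : 2 * p * (m + 1 + D) < 0 := mul_neg_of_pos_of_neg (by positivity) h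
    linarith
  have hkey : ∀ θ : ℝ, 0 < θ → ∀ n₀ : ℕ, ∀ n ≥ n₀, ∀ k ≥ n₀,
      ∫ x in Ω, ‖∇ (φ n) x - ∇ (φ k) x‖ ^ p ≤
        θ ^ p * (16 * p * (m + 1 + D)) + θ ^ (p - 2) * (p / c * (1 / ((n₀:ℝ) + 1))) := by
    intro θ hθ n₀ n hn k hk
    have ha := test_grad_memLp (hφ n) (ENNReal.ofReal p)
    have hb := test_grad_memLp (hφ k) (ENNReal.ofReal p)
    have hmid : Test Ω (fun x => (1/2) * φ n x + (1/2) * φ k x) := test_lin (hφ n) (hφ k) _ _
    have hgm : ∀ x, ∇ (fun x => (1/2) * φ n x + (1/2) * φ k x) x =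
        (1 / 2 : ℝ) • (∇ (φ n) x + ∇ (φ k) x) := by
      intro x
      rw [grad_lin (hφ n).1 (hφ k).1, smul_add]
    have hJm := hmle _ hmid
    have hdec : ∀ i ≥ n₀, J Ω p F (φ i) (fun x => ∇ (φ i) x) ≤ m + 1 / ((n₀:ℝ) + 1) := by
      intro i hi
      refine (hφJ i).le.trans ?_
      have : (n₀:ℝ) ≤ i := by exact_mod_cast hi
      gcongr
    have hJn := hdec n hn
    have hJk := hdec k hk
    have hIm := hI (test_grad_memLp hmid (ENNReal.ofReal p))
    simp_rw [hgm] at hIm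
    have hIa := hI ha
    have hIb := hI hb
    have hIFn := hIF (test_memLp (hφ n) (ENNReal.ofReal p))
    have hIFk := hIF (test_memLp (hφ k) (ENNReal.ofReal p))
    unfold J at hJm hJn hJk
    simp_rw [hgm] at hJm
    have hFm : ∫ x in Ω, F x * ((1/2) * φ n x + (1/2) * φ k x) =
        (1/2) * (∫ x in Ω, F x * φ n x) + (1/2) * ∫ x in Ω, F x * φ k x := by
      rw [← integral_const_mul, ← integral_const_mul, ← integral_add (hIFn.const_mul _)
        (hIFk.const_mul _)]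
      congr 1
      ext x
      ring
    rw [hFm] at hJm
    have hIab : Integrable (fun x => (‖∇ (φ n) x‖ ^ p + ‖∇ (φ k) x‖ ^ p) / 2)
        (volume.restrict Ω) := (hIa.add hIb).div_const 2
    -- the convexity defect
    have hdef : (∫ x in Ω, ((‖∇ (φ n) x‖ ^ p + ‖∇ (φ k) x‖ ^ p) / 2 -
        ‖(1 / 2 : ℝ) • (∇ (φ n) x + ∇ (φ k) x)‖ ^ p)) ≤ p * (1 / ((n₀:ℝ) + 1)) := by
      rw [integral_sub hIab hIm, integral_div, integral_add hIa hIb]
      have h1 : p * (1 / p) = 1 := mul_one_div_cancel hp0.ne'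
      set a1 := ∫ x in Ω, ‖∇ (φ n) x‖ ^ p
      set a2 := ∫ x in Ω, ‖∇ (φ k) x‖ ^ p
      set a3 := ∫ x in Ω, ‖(1 / 2 : ℝ) • (∇ (φ n) x + ∇ (φ k) x)‖ ^ p
      set e := 1 / ((n₀:ℝ) + 1)
      have h2 : 1 / p * ((a1 + a2) / 2 - a3) ≤ e := by linarith
      have h3 := mul_le_mul_of_nonneg_left h2 hp0.le
      calc (a1 + a2) / 2 - a3 = p * (1 / p) * ((a1 + a2) / 2 - a3) := by rw [h1, one_mul]
        _ = p * (1 / p * ((a1 + a2) / 2 - a3)) := by ring
        _ ≤ p * e := h3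
    have hIX : Integrable (fun x => ‖∇ (φ n) x - ∇ (φ k) x‖ ^ 2 *
        (‖∇ (φ n) x‖ + ‖∇ (φ k) x‖) ^ (p - 2)) (volume.restrict Ω) := by
      have hdom : Integrable (fun x => c⁻¹ * ((‖∇ (φ n) x‖ ^ p + ‖∇ (φ k) x‖ ^ p) / 2 -
        ‖(1 / 2 : ℝ) • (∇ (φ n) x + ∇ (φ k) x)‖ ^ p)) (volume.restrict Ω) :=
        (hIab.sub hIm).const_mul _
      refine hdom.mono' ?_ (ae_of_all _ fun x => ?_)
      · apply AEStronglyMeasurable.mul
        · exact (ha.aestronglyMeasurable.sub hb.aestronglyMeasurable).norm.pow 2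
        · exact ((ha.aestronglyMeasurable.norm.add
            hb.aestronglyMeasurable.norm).aemeasurable.pow_const _).aestronglyMeasurable
      · rw [Real.norm_of_nonneg (by positivity)]
        have := hvec (∇ (φ n) x) (∇ (φ k) x)
        rw [le_inv_mul_iff₀ hc]
        exact this
    have hX : ∫ x in Ω, ‖∇ (φ n) x - ∇ (φ k) x‖ ^ 2 *
        (‖∇ (φ n) x‖ + ‖∇ (φ k) x‖) ^ (p - 2) ≤ p / c * (1 / ((n₀:ℝ) + 1)) := by
      have h1 : c * ∫ x in Ω, ‖∇ (φ n) x - ∇ (φ k) x‖ ^ 2 *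
          (‖∇ (φ n) x‖ + ‖∇ (φ k) x‖) ^ (p - 2) ≤ p * (1 / ((n₀:ℝ) + 1)) := by
        refine le_trans ?_ hdef
        rw [← integral_const_mul]
        apply integral_mono (hIX.const_mul c) (hIab.sub hIm)
        intro x
        exact hvec (∇ (φ n) x) (∇ (φ k) x)
      calc _ = c⁻¹ * (c * ∫ x in Ω, ‖∇ (φ n) x - ∇ (φ k) x‖ ^ 2 *
            (‖∇ (φ n) x‖ + ‖∇ (φ k) x‖) ^ (p - 2)) := by
            rw [inv_mul_cancel_left₀ hc.ne']
        _ ≤ c⁻¹ * (p * (1 / ((n₀:ℝ) + 1))) := by gcongr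
        _ = _ := by ring
    have hSi : Integrable (fun x => 4 * (‖∇ (φ n) x‖ ^ p + ‖∇ (φ k) x‖ ^ p))
        (volume.restrict Ω) := (hIa.add hIb).const_mul 4
    have hSum : ∫ x in Ω, 4 * (‖∇ (φ n) x‖ ^ p + ‖∇ (φ k) x‖ ^ p) ≤ 16 * p * (m + 1 + D) := by
      rw [integral_const_mul, integral_add hIa hIb, hAp _ (hφ n), hAp _ (hφ k)]
      have h1 := hAb n
      have h2 := hAb k
      linarith
    calc ∫ x in Ω, ‖∇ (φ n) x - ∇ (φ k) x‖ ^ p
        ≤ ∫ x in Ω, (θ ^ p * (4 * (‖∇ (φ n) x‖ ^ p + ‖∇ (φ k) x‖ ^ p)) +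
          θ ^ (p - 2) * (‖∇ (φ n) x - ∇ (φ k) x‖ ^ 2 *
            (‖∇ (φ n) x‖ + ‖∇ (φ k) x‖) ^ (p - 2))) := by
          apply integral_mono (hI (ha.sub hb)) ((hSi.const_mul _).add (hIX.const_mul _))
          intro x
          refine (split_le hp0 hp2 hθ).trans ?_
          have h1 := sum_rpow_le hp1 hp2 (norm_nonneg (∇ (φ n) x)) (norm_nonneg (∇ (φ k) x))
          show _ ≤ θ ^ p * (4 * (‖∇ (φ n) x‖ ^ p + ‖∇ (φ k) x‖ ^ p)) +
            θ ^ (p - 2) * (‖∇ (φ n) x - ∇ (φ k) x‖ ^ 2 *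
              (‖∇ (φ n) x‖ + ‖∇ (φ k) x‖) ^ (p - 2))
          gcongr
      _ = θ ^ p * (∫ x in Ω, 4 * (‖∇ (φ n) x‖ ^ p + ‖∇ (φ k) x‖ ^ p)) +
          θ ^ (p - 2) * ∫ x in Ω, ‖∇ (φ n) x - ∇ (φ k) x‖ ^ 2 *
            (‖∇ (φ n) x‖ + ‖∇ (φ k) x‖) ^ (p - 2) := by
          rw [integral_add (hSi.const_mul _) (hIX.const_mul _), integral_const_mul (θ ^ p),
            integral_const_mul (θ ^ (p - 2))]
      _ ≤ _ := by gcongr
  -- Cauchy
  have hCau : ∀ η > 0, ∃ n₀, ∀ n ≥ n₀, ∀ k ≥ n₀,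
      (eLpNorm (fun x => ∇ (φ n) x - ∇ (φ k) x) (ENNReal.ofReal p)
        (volume.restrict Ω)).toReal < η := by
    intro η hη
    have hηp : 0 < η ^ p := by positivity
    -- choose θ
    obtain ⟨θ, hθ, hθ1⟩ : ∃ θ : ℝ, 0 < θ ∧ θ ^ p * (16 * p * (m + 1 + D)) < η ^ p / 2 := by
      have h1 : Tendsto (fun θ : ℝ => θ ^ p * (16 * p * (m + 1 + D))) (𝓝[>] 0) (𝓝 0) := by
        have h2 := (Real.continuousAt_rpow_const 0 p (Or.inr hp0.le)).tendsto
        rw [Real.zero_rpow hp0.ne'] at h2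
        have h3 := (h2.mono_left (nhdsWithin_le_nhds (s := Ioi (0:ℝ)))).mul_const
          (16 * p * (m + 1 + D))
        rwa [zero_mul] at h3
      have h4 := h1.eventually (gt_mem_nhds (half_pos hηp))
      obtain ⟨θ, h5, h6⟩ := (h4.and self_mem_nhdsWithin).exists
      exact ⟨θ, h6, h5⟩
    have h1 : Tendsto (fun n₀ : ℕ => θ ^ (p - 2) * (p / c * (1 / ((n₀:ℝ) + 1)))) atTop (𝓝 0) := by
      have := (tendsto_one_div_add_atTop_nhds_zero_nat (𝕜 := ℝ)).const_mul (p / c)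
      have := this.const_mul (θ ^ (p - 2))
      simpa using this
    obtain ⟨n₀, hn₀⟩ := (h1.eventually (gt_mem_nhds (half_pos hηp))).exists
    refine ⟨n₀, fun n hn k hk => ?_⟩
    have h2 := hkey θ hθ n₀ n hn k hk
    have hsub : MemLp (fun x => ∇ (φ n) x - ∇ (φ k) x) (ENNReal.ofReal p)
        (volume.restrict Ω) := (test_grad_memLp (hφ n) _).sub (test_grad_memLp (hφ k) _)
    rw [integral_rpow_eq hp0 hsub] at h2
    have h3 : (eLpNorm (fun x => ∇ (φ n) x - ∇ (φ k) x) (ENNReal.ofReal p)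
        (volume.restrict Ω)).toReal ^ p < η ^ p := by
      refine lt_of_le_of_lt h2 ?_
      linarith
    exact (Real.rpow_lt_rpow_iff ENNReal.toReal_nonneg hη.le hp0).1 h3
  obtain ⟨G, hG, htG⟩ := exists_limit hp1.le (fun n => test_grad_memLp (hφ n) _) hCau
  have hCau2 : ∀ η > 0, ∃ n₀, ∀ n ≥ n₀, ∀ k ≥ n₀,
      (eLpNorm (fun x => φ n x - φ k x) (ENNReal.ofReal p)
        (volume.restrict Ω)).toReal < η := by
    intro η hη
    obtain ⟨n₀, hn₀⟩ := hCau (η / (C + 1)) (by positivity)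
    refine ⟨n₀, fun n hn k hk => ?_⟩
    have h1 := hn₀ n hn k hk
    have hd : Test Ω (fun x => 1 * φ n x + (-1) * φ k x) := test_lin (hφ n) (hφ k) _ _
    have h2 := hpoin _ hd
    have h3 : (fun x => 1 * φ n x + (-1) * φ k x) = fun x => φ n x - φ k x := by
      ext x; ring
    have h4 : A (fun x => 1 * φ n x + (-1) * φ k x) =
        (eLpNorm (fun x => ∇ (φ n) x - ∇ (φ k) x) (ENNReal.ofReal p)
        (volume.restrict Ω)).toReal := by
      show (eLpNorm (fun x => ∇ (fun x => 1 * φ n x + (-1) * φ k x) x) (ENNReal.ofReal p)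
        (volume.restrict Ω)).toReal = _
      congr 2
      ext1 x
      rw [grad_lin (hφ n).1 (hφ k).1]
      simp [sub_eq_add_neg]
    rw [h4] at h2
    rw [← h3]
    refine lt_of_le_of_lt h2 ?_
    have hC0 : (0:ℝ) ≤ C := C.coe_nonneg
    calc (C:ℝ) * _ ≤ C * (η / (C + 1)) := by gcongr
      _ < η := by
        rw [mul_div_assoc', div_lt_iff₀ (by positivity)]
        nlinarith
  obtain ⟨u, hu, htu⟩ := exists_limit hp1.le (fun n => test_memLp (hφ n) _) hCau2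
  have hJu : J Ω p F u G = m := by
    have h1 := hcont φ u G hφ hu hG htu htG
    have h2 : Tendsto (fun n => J Ω p F (φ n) (fun x => ∇ (φ n) x)) atTop (𝓝 m) := by
      apply tendsto_of_tendsto_of_tendsto_of_le_of_le (tendsto_const_nhds (x := m))
        (h := fun n : ℕ => m + 1 / ((n:ℝ) + 1))
      · simpa using (tendsto_one_div_add_atTop_nhds_zero_nat (𝕜 := ℝ)).const_add m
      · intro n; exact hmle _ (hφ n)
      · intro n; exact (hφJ n).le
    exact tendsto_nhds_unique h1 h2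
  refine ⟨u, G, ⟨hu, hG, φ, hφ, htu, htG⟩, ?_⟩
  intro v V hv
  obtain ⟨hv1, hV1, ψ, hψ, htv, htV⟩ := hv
  show J Ω p F u G ≤ J Ω p F v V
  rw [hJu]
  exact ge_of_tendsto (hcont ψ v V hψ hv1 hV1 htv htV) (Eventually.of_forall fun n => hmle _ (hψ n))

end Helper35.SDim
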