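import Pool.Agent.Helper19.SDim.Spec

/-!
# MORREY: the points where an integrable function fails a Morrey bound
-/

noncomputable section

open MeasureTheory Filter Set Metric
open scoped Topology ENNReal NNReal RealInnerProductSpace ContDiff Gradient

namespace Helper35.SDim

open Helper19.SDim

theorem morrey_thm : S_MORREY := by
  intro N f s hf hf0 hs
  set T := {x : E N | ¬ ∃ M > 0, ∃ r₀ > 0, ∀ r : ℝ, 0 < r → r < r₀ →
    ∫ y in ball x r, f y ≤ M * r ^ s} with hT
  -- choose radii
  have h1 : ∀ n : ℕ, ∀ x ∈ T, ∃ r : ℝ, 0 < r ∧ r < 1 / ((n:ℝ) + 1) ∧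
      r ^ s < ∫ y in ball x r, f y := by
    intro n x hx
    rw [hT, mem_setOf_eq] at hx
    push Not at hx
    obtain ⟨r, h1, h2, h3⟩ := hx 1 one_pos (1 / ((n:ℝ) + 1)) (by positivity)
    exact ⟨r, h1, h2, by simpa using h3⟩
  choose! r hr0 hr1 hr2 using h1
  -- the measure
  set m : Measure (E N) := volume.withDensity (fun x => ENNReal.ofReal (f x)) with hm
  have hm_ball : ∀ n, ∀ x ∈ T, ENNReal.ofReal (r n x ^ s) ≤ m (closedBall x (r n x)) := by
    intro n x hx
    calc ENNReal.ofReal (r n x ^ s) ≤ ENNReal.ofReal (∫ y in ball x (r n x), f y) :=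
          ENNReal.ofReal_le_ofReal (hr2 n x hx).le
      _ = ∫⁻ y in ball x (r n x), ENNReal.ofReal (f y) :=
          ofReal_integral_eq_lintegral_ofReal hf.integrableOn (ae_of_all _ hf0)
      _ = m (ball x (r n x)) := (withDensity_apply _ measurableSet_ball).symm
      _ ≤ _ := measure_mono ball_subset_closedBall
  have hmfin : m univ ≠ ⊤ := by
    rw [hm, withDensity_apply _ MeasurableSet.univ, Measure.restrict_univ,
      ← ofReal_integral_eq_lintegral_ofReal hf (ae_of_all _ hf0)]
    exact ENNReal.ofReal_ne_top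
  -- Vitali
  have h2 : ∀ n, ∃ u ⊆ T, (u.PairwiseDisjoint fun a => closedBall a (r n a)) ∧
      ∀ a ∈ T, ∃ b ∈ u, closedBall a (r n a) ⊆ closedBall b (5 * r n b) := fun n =>
    Vitali.exists_disjoint_subfamily_covering_enlargement_closedBall T (fun x => x) (r n)
      (1 / ((n:ℝ)+1)) (fun a ha => (hr1 n a ha).le) 5 (by norm_num)
  choose u huT hud huc using h2
  have hcount : ∀ n, (u n).Countable := fun n =>
    (hud n).countable_of_nonempty_interior (fun a ha =>
      ⟨a, ball_subset_interior_closedBall (mem_ball_self (hr0 n a (huT n ha)))⟩)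
  haveI : ∀ n, Countable (u n) := fun n => (hcount n).to_subtype
  -- diameters
  have hdiam : ∀ n, ∀ i : u n, ediam (closedBall (i : E N) (5 * r n i)) ≤
      ENNReal.ofReal (10 * r n i) := by
    intro n i
    have h3 : (0:ℝ) ≤ 5 * r n i := by
      have := hr0 n i (huT n i.2)
      linarith
    have h4 : ediam (closedBall (i : E N) (5 * r n i)) ≤ 2 * ENNReal.ofReal (5 * r n i) := by
      rw [← Metric.closedEBall_ofReal h3]
      exact Metric.ediam_closedEBall_le
    refine h4.trans_eq ?_
    rw [show (10:ℝ) * r n i = 2 * (5 * r n i) by ring,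
      ENNReal.ofReal_mul (by norm_num : (0:ℝ) ≤ 2)]
    simp
  -- bound for each n
  have hbound : ∀ n, ∑' i : u n, ediam (closedBall (i : E N) (5 * r n i)) ^ s ≤
      ENNReal.ofReal (10 ^ s) * m univ := by
    intro n
    calc ∑' i : u n, ediam (closedBall (i : E N) (5 * r n i)) ^ s
        ≤ ∑' i : u n, ENNReal.ofReal (10 ^ s) * m (closedBall (i : E N) (r n i)) := by
          apply ENNReal.tsum_le_tsum
          intro i
          have hri := hr0 n i (huT n i.2)
          calc ediam (closedBall (i : E N) (5 * r n i)) ^ s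
              ≤ (ENNReal.ofReal (10 * r n i)) ^ s := ENNReal.rpow_le_rpow (hdiam n i) hs.le
            _ = ENNReal.ofReal (10 ^ s) * ENNReal.ofReal (r n i ^ s) := by
                rw [ENNReal.ofReal_rpow_of_nonneg (by positivity) hs.le,
                  Real.mul_rpow (by norm_num) hri.le, ENNReal.ofReal_mul (by positivity)]
            _ ≤ _ := by gcongr; exact hm_ball n i (huT n i.2)
      _ = ENNReal.ofReal (10 ^ s) * ∑' i : u n, m (closedBall (i : E N) (r n i)) :=
          ENNReal.tsum_mul_left
      _ ≤ ENNReal.ofReal (10 ^ s) * m univ := by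
          gcongr
          apply tsum_measure_le_measure_univ
          · intro i; exact measurableSet_closedBall.nullMeasurableSet
          · intro i j hij
            apply Disjoint.aedisjoint
            exact hud n i.2 j.2 (fun h => hij (Subtype.ext h))
  -- conclusion
  have hfin : μH[s] T ≤ ENNReal.ofReal (10 ^ s) * m univ := by
    refine (Measure.hausdorffMeasure_le_liminf_tsum (l := atTop) (ι := fun n => u n) s T
      (fun n : ℕ => ENNReal.ofReal (10 * (1 / ((n:ℝ) + 1)))) ?_
      (fun n i => closedBall (i : E N) (5 * r n i)) ?_ ?_).trans ?_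
    · rw [show (0 : ℝ≥0∞) = ENNReal.ofReal (10 * 0) by simp]
      apply ENNReal.tendsto_ofReal
      exact tendsto_one_div_add_atTop_nhds_zero_nat.const_mul 10
    · refine Eventually.of_forall fun n i => (hdiam n i).trans ?_
      apply ENNReal.ofReal_le_ofReal
      have := hr1 n i (huT n i.2)
      linarith
    · refine Eventually.of_forall fun n x hx => ?_
      obtain ⟨b, hb, hsub⟩ := huc n x hx
      rw [mem_iUnion]
      exact ⟨⟨b, hb⟩, hsub (mem_closedBall_self (hr0 n x hx).le)⟩
    · calc liminf (fun n => ∑' i : u n, ediam (closedBall (i : E N) (5 * r n i)) ^ s) atTop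
          ≤ liminf (fun _ : ℕ => ENNReal.ofReal (10 ^ s) * m univ) atTop :=
            liminf_le_liminf (Eventually.of_forall hbound)
        _ = _ := by rw [liminf_const]
  have hne : μH[(s.toNNReal : ℝ)] T ≠ ⊤ := by
    rw [Real.coe_toNNReal s hs.le]
    exact ne_top_of_le_ne_top (ENNReal.mul_ne_top ENNReal.ofReal_ne_top hmfin) hfin
  exact dimH_le_of_hausdorffMeasure_ne_top hne

end Helper35.SDim
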