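import Pool.Agent.Helper19.SDim.Spec

/-!
# STEP: one step of the level iteration
-/

noncomputable section

open MeasureTheory Filter Set Metric
open scoped Topology ENNReal NNReal RealInnerProductSpace ContDiff Gradient

namespace Helper35.SDim

open Helper19.SDim

lemma gam_pos {N : ℕ} {p : ℝ} (hN : 2 ≤ N) (hp : 1 < p) (hp2 : p < 2) : 0 < gam N p := by
  have hN' : (2:ℝ) ≤ N := by exact_mod_cast hN
  unfold gam
  apply div_pos
  · apply mul_pos <;> linarith
  · linarith

lemma pst_pos {N : ℕ} {p : ℝ} (hN : 2 ≤ N) (hp : 1 < p) (hp2 : p < 2) : 0 < pst N p := by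
  have hN' : (2:ℝ) ≤ N := by exact_mod_cast hN
  unfold pst
  apply div_pos
  · apply mul_pos <;> linarith
  · linarith

/-- small powers -/
lemma exists_small (α β A B V : ℝ) (hα : 0 < α) (hβ : β < α) (hB : 0 < B) (hV : 0 < V) (A' : ℝ)
    (_ : 0 ≤ A) :
    ∃ δ : ℝ, 0 < δ ∧ δ < 1 ∧ A' * δ ^ α < V ∧ A * δ ^ α ≤ B * δ ^ β := by
  have h1 : Tendsto (fun δ : ℝ => δ ^ α) (𝓝[>] 0) (𝓝 0) := by
    have := (Real.continuousAt_rpow_const 0 α (Or.inr hα.le)).tendsto
    rw [Real.zero_rpow hα.ne'] at this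
    exact this.mono_left nhdsWithin_le_nhds
  have h2 : Tendsto (fun δ : ℝ => δ ^ (α - β)) (𝓝[>] 0) (𝓝 0) := by
    have h0 : 0 < α - β := by linarith
    have := (Real.continuousAt_rpow_const 0 (α - β) (Or.inr h0.le)).tendsto
    rw [Real.zero_rpow h0.ne'] at this
    exact this.mono_left nhdsWithin_le_nhds
  have h3 : ∀ᶠ δ : ℝ in 𝓝[>] 0, A' * δ ^ α < V := by
    have := h1.const_mul A'
    rw [mul_zero] at this
    exact this.eventually (gt_mem_nhds hV)
  have h4 : ∀ᶠ δ : ℝ in 𝓝[>] 0, A * δ ^ (α - β) < B := by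
    have := h2.const_mul A
    rw [mul_zero] at this
    exact this.eventually (gt_mem_nhds hB)
  have h5 : ∀ᶠ δ : ℝ in 𝓝[>] 0, δ < 1 :=
    (eventually_lt_nhds (by norm_num : (0:ℝ) < 1)).filter_mono nhdsWithin_le_nhds
  obtain ⟨δ, ⟨h3, h4, h5⟩, h6⟩ := ((h3.and (h4.and h5)).and self_mem_nhdsWithin).exists
  have h6 : 0 < δ := h6
  refine ⟨δ, h6, h5, h3, ?_⟩
  have h7 : δ ^ α = δ ^ (α - β) * δ ^ β := by
    rw [← Real.rpow_add h6]; congr 1; ring
  rw [h7, ← mul_assoc]
  exact mul_le_mul_of_nonneg_right h4.le (Real.rpow_nonneg h6.le _)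

theorem step_thm : S_STEP := by
  intro N p ψ w K C hN hp hp2 hA hC
  have hN' : (2:ℝ) ≤ N := by exact_mod_cast hN
  have hNe : (N:ℝ) ≠ 0 := by linarith
  have hg0 : 0 < gam N p := gam_pos hN hp hp2
  have hq0 : 0 < pst N p := pst_pos hN hp hp2
  have hθ' : p / pst N p = (N - p) / N := by
    unfold pst
    have h1 : (N:ℝ) - p ≠ 0 := by linarith
    have h2 : p ≠ 0 := by linarith
    field_simp
  set g := gam N p with hg
  set q := pst N p with hq
  set θ := p / q with hθ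
  have hθ0 : 0 < θ := by rw [hθ']; apply div_pos <;> linarith
  have hθ1 : θ < 1 := by rw [hθ', div_lt_one (by linarith)]; linarith
  -- the choice of ε
  obtain ⟨ε, hε, hεg⟩ : ∃ ε : ℝ, 0 < ε ∧ ε ^ g * 2 ^ N = 1 / 2 := by
    refine ⟨((1/2) / 2^N) ^ (1/g), by positivity, ?_⟩
    rw [← Real.rpow_mul (by positivity), one_div_mul_cancel hg0.ne', Real.rpow_one]
    field_simp
  obtain ⟨Cε, hCε, hlow⟩ := hA.w_low ε hε
  have hc₀ : 0 < (1 / (2 * Cε)) ^ θ := by positivity
  set c₀ : ℝ := (1 / (2 * Cε)) ^ θ with hc₀d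
  have hC' : (0:ℝ) < 2 ^ N + 2 ^ g * 2 ^ N := by positivity
  set C' : ℝ := 2 ^ N + 2 ^ g * 2 ^ N with hC'd
  have hV : 0 < (volume (ball (0 : E N) 1)).toReal := by
    apply ENNReal.toReal_pos
    · exact (measure_ball_pos volume _ one_pos).ne'
    · exact measure_ball_lt_top.ne
  obtain ⟨δ, hδ0, hδ1, hδv, hδc⟩ := exists_small g (g * θ) (C * C') (c₀ / 2)
    (volume (ball (0 : E N) 1)).toReal hg0 (by nlinarith) (by positivity) hV (2 ^ N) (by positivity)
  refine ⟨δ, hδ0, hδ1, ?_, 2 * C / (c₀ * δ ^ (g * θ)), by positivity, ?_⟩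
  · rw [ENNReal.ofReal_lt_iff_lt_toReal (by positivity) measure_ball_lt_top.ne]
    exact hδv
  intro u x₀ r a₀ d₀ a d μ hr ha₀ hd₀ ha hd hdd hum hui h1 h2 hwi h3
  -- notation
  set ν : Measure (E N) := volume.restrict (ball x₀ r) with hν
  have hS : NullMeasurableSet {x | a < u x} ν :=
    nullMeasurableSet_lt aemeasurable_const hum.aemeasurable
  have hrest : volume.restrict (ball x₀ r ∩ {x | a < u x}) = ν.restrict {x | a < u x} := by
    rw [Measure.restrict_restrict₀ hS, inter_comm]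
  have hfin : IsFiniteMeasure ν := ⟨by
    rw [hν, Measure.restrict_apply_univ]; exact measure_ball_lt_top⟩
  -- measurability of powers
  have hmeas : ∀ t : ℝ, AEStronglyMeasurable (fun x => (max (u x - t) 0) ^ g) ν := by
    intro t
    exact (((hum.aemeasurable.sub_const t).max aemeasurable_const).pow_const g).aestronglyMeasurable
  have hint : ∀ t : ℝ, 0 ≤ t → Integrable (fun x => (max (u x - t) 0) ^ g) ν := by
    intro t ht
    refine hui.mono' (hmeas t) (ae_of_all _ fun x => ?_)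
    rw [Real.norm_of_nonneg (by positivity)]
    apply Real.rpow_le_rpow (le_max_right _ _) _ hg0.le
    apply max_le _ (abs_nonneg _)
    linarith [le_abs_self (u x)]
  have ha0 : 0 ≤ a := by rw [ha]; linarith
  -- (1) Chebyshev
  have hm1 : (ν {x | a < u x}).toReal ≤ 2 ^ N * δ ^ g * r ^ N := by
    have h4 : d₀ ^ g * (ν {x | a < u x}).toReal ≤ ∫ x, (max (u x - a₀) 0) ^ g ∂ν := by
      have h5 : d₀ ^ g * (ν {x | a < u x}).toReal = ∫ x in {x | a < u x}, d₀ ^ g ∂ν := by
        rw [setIntegral_const, measureReal_def, smul_eq_mul, mul_comm]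
      rw [h5]
      calc ∫ x in {x | a < u x}, d₀ ^ g ∂ν ≤ ∫ x in {x | a < u x}, (max (u x - a₀) 0) ^ g ∂ν := by
            apply setIntegral_mono_on₀ (integrable_const _).integrableOn (hint a₀ ha₀).integrableOn hS
            intro x hx
            have hx : a < u x := hx
            apply Real.rpow_le_rpow hd₀.le _ hg0.le
            apply le_max_of_le_left
            linarith
        _ ≤ ∫ x, (max (u x - a₀) 0) ^ g ∂ν := by
            apply setIntegral_le_integral (hint a₀ ha₀)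
            exact ae_of_all _ fun x => Real.rpow_nonneg (le_max_right _ _) _
    rw [h1] at h4
    have h6 : 0 < d₀ ^ g := by positivity
    have h7 : d₀ ^ g * (ν {x | a < u x}).toReal ≤ d₀ ^ g * (2 ^ N * δ ^ g * r ^ N) := by
      refine h4.trans_eq ?_
      rw [mul_pow]; ring
    exact le_of_mul_le_mul_left h7 h6
  -- (2)
  have hdiv : ∀ x, a < u x → ((u x - a) / d) ^ g = (d ^ g)⁻¹ * (max (u x - a) 0) ^ g := by
    intro x hx
    rw [Real.div_rpow (by linarith) hd.le, max_eq_left (by linarith)]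
    ring
  have hdd' : (d ^ g)⁻¹ * d₀ ^ g ≤ 2 ^ g := by
    rw [inv_mul_le_iff₀ (by positivity), mul_comm, ← Real.mul_rpow (by norm_num) hd.le]
    exact Real.rpow_le_rpow hd₀.le hdd hg0.le
  have hm2i : IntegrableOn (fun x => ((u x - a) / d) ^ g) {x | a < u x} ν := by
    have h5 : IntegrableOn (fun x => (d ^ g)⁻¹ * (max (u x - a) 0) ^ g) {x | a < u x} ν :=
      ((hint a ha0).const_mul _).integrableOn
    refine h5.congr ?_
    rw [EventuallyEq, ae_restrict_iff'₀ hS]
    exact ae_of_all _ fun x hx => (hdiv x hx).symm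
  have hm2 : ∫ x in {x | a < u x}, ((u x - a) / d) ^ g ∂ν ≤ 2 ^ g * 2 ^ N * δ ^ g * r ^ N := by
    calc ∫ x in {x | a < u x}, ((u x - a) / d) ^ g ∂ν
        = ∫ x in {x | a < u x}, (d ^ g)⁻¹ * (max (u x - a) 0) ^ g ∂ν := by
          apply integral_congr_ae
          rw [EventuallyEq, ae_restrict_iff'₀ hS]
          exact ae_of_all _ fun x hx => hdiv x hx
      _ ≤ ∫ x, (d ^ g)⁻¹ * (max (u x - a) 0) ^ g ∂ν := by
          apply setIntegral_le_integral ((hint a ha0).const_mul _)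
          exact ae_of_all _ fun x => by
            show (0:ℝ) ≤ (d ^ g)⁻¹ * (max (u x - a) 0) ^ g
            have := Real.rpow_nonneg (le_max_right (u x - a) 0) g
            positivity
      _ = (d ^ g)⁻¹ * ∫ x, (max (u x - a) 0) ^ g ∂ν := integral_const_mul _ _
      _ ≤ (d ^ g)⁻¹ * ∫ x, (max (u x - a₀) 0) ^ g ∂ν := by
          apply mul_le_mul_of_nonneg_left _ (by positivity)
          apply integral_mono (hint a ha0) (hint a₀ ha₀)
          intro x
          apply Real.rpow_le_rpow (le_max_right _ _) _ hg0.le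
          apply max_le_max _ le_rfl
          linarith
      _ = ((d ^ g)⁻¹ * d₀ ^ g) * (2 ^ N * δ ^ g * r ^ N) := by
          rw [h1, mul_pow]; ring
      _ ≤ 2 ^ g * (2 ^ N * δ ^ g * r ^ N) := by
          apply mul_le_mul_of_nonneg_right hdd' (by positivity)
      _ = 2 ^ g * 2 ^ N * δ ^ g * r ^ N := by ring
  -- (3)
  have hm3 : ∫ x in ball x₀ r ∩ {x | a < u x}, (1 + ((u x - a) / d) ^ g) ≤ C' * (δ ^ g * r ^ N) := by
    rw [hrest]
    rw [integral_add (integrable_const _) hm2i, setIntegral_const, measureReal_def, smul_eq_mul,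
      mul_one]
    calc _ ≤ 2 ^ N * δ ^ g * r ^ N + 2 ^ g * 2 ^ N * δ ^ g * r ^ N := add_le_add hm1 hm2
      _ = C' * (δ ^ g * r ^ N) := by rw [hC'd]; ring
  -- (4)
  have hsub : ball x₀ (r / 2) ⊆ ball x₀ r := ball_subset_ball (by linarith)
  set ν' : Measure (E N) := volume.restrict (ball x₀ (r / 2)) with hν'
  have hle : ν' ≤ ν := Measure.restrict_mono hsub le_rfl
  have hS' : NullMeasurableSet {x | a < u x} ν' := hS.mono_ac hle.absolutelyContinuous
  have hm4 : (ν' {x | a < u x}).toReal ≤ 2 ^ N * δ ^ g * r ^ N := by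
    refine le_trans ?_ hm1
    apply ENNReal.toReal_mono (measure_ne_top _ _)
    exact hle _
  have hfin' : IsFiniteMeasure ν' := ⟨by
    rw [hν', Measure.restrict_apply_univ]; exact measure_ball_lt_top⟩
  have hm5 : δ ^ g * r ^ N ≤ ε ^ g * (ν' {x | a < u x}).toReal +
      Cε * ∫ x, (w ((u x - a) / d)) ^ q ∂ν' := by
    have h5 : δ ^ g * r ^ N = ∫ x, (d ^ g)⁻¹ * (max (u x - a) 0) ^ g ∂ν' := by
      rw [integral_const_mul, h2]
      have : d ^ g ≠ 0 := by positivity
      field_simp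
    rw [h5]
    have hi1 : Integrable (indicator {x | a < u x} (fun _ => ε ^ g)) ν' :=
      (integrable_const _).indicator₀ hS'
    calc ∫ x, (d ^ g)⁻¹ * (max (u x - a) 0) ^ g ∂ν'
        ≤ ∫ x, (indicator {x | a < u x} (fun _ => ε ^ g) x + Cε * (w ((u x - a) / d)) ^ q) ∂ν' := by
          apply integral_mono (((hint a ha0).mono_measure hle).const_mul _)
            (hi1.add (hwi.const_mul _))
          intro x
          show (d ^ g)⁻¹ * (max (u x - a) 0) ^ g ≤
            indicator {x | a < u x} (fun _ => ε ^ g) x + Cε * (w ((u x - a) / d)) ^ q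
          by_cases hx : a < u x
          · rw [← hdiv x hx, indicator_of_mem (by exact hx)]
            have hs : 0 < (u x - a) / d := div_pos (by linarith) hd
            have hwn : 0 ≤ (w ((u x - a) / d)) ^ q := Real.rpow_nonneg (hA.w_nonneg _) _
            by_cases hxe : ε ≤ (u x - a) / d
            · have := hlow _ hxe
              have h8 : 0 ≤ ε ^ g := by positivity
              linarith
            · push Not at hxe
              have h8 : ((u x - a) / d) ^ g ≤ ε ^ g := Real.rpow_le_rpow hs.le hxe.le hg0.le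
              have h9 : 0 ≤ Cε * (w ((u x - a) / d)) ^ q := by positivity
              linarith
          · rw [indicator_of_notMem (by exact hx)]
            push Not at hx
            rw [max_eq_right (by linarith), Real.zero_rpow hg0.ne', mul_zero]
            have hwn : 0 ≤ (w ((u x - a) / d)) ^ q := Real.rpow_nonneg (hA.w_nonneg _) _
            positivity
      _ = ε ^ g * (ν' {x | a < u x}).toReal + Cε * ∫ x, (w ((u x - a) / d)) ^ q ∂ν' := by
          rw [integral_add hi1 (hwi.const_mul _), integral_const_mul, integral_indicator₀ hS',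
            setIntegral_const, measureReal_def, smul_eq_mul, mul_comm]
  have hm6 : δ ^ g * r ^ N / (2 * Cε) ≤ ∫ x, (w ((u x - a) / d)) ^ q ∂ν' := by
    have h5 : ε ^ g * (ν' {x | a < u x}).toReal ≤ 1 / 2 * (δ ^ g * r ^ N) := by
      calc _ ≤ ε ^ g * (2 ^ N * δ ^ g * r ^ N) := by gcongr
        _ = (ε ^ g * 2 ^ N) * (δ ^ g * r ^ N) := by ring
        _ = _ := by rw [hεg]
    rw [div_le_iff₀ (by positivity)]
    linarith
  -- (5)
  have hm7 : c₀ * δ ^ (g * θ) * r ^ ((N:ℝ) - p) ≤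
      (∫ x, (w ((u x - a) / d)) ^ q ∂ν') ^ θ := by
    have h5 := Real.rpow_le_rpow (by positivity) hm6 hθ0.le
    refine le_trans (le_of_eq ?_) h5
    rw [show δ ^ g * r ^ N / (2 * Cε) = 1 / (2 * Cε) * (δ ^ g * r ^ N) by ring,
      Real.mul_rpow (by positivity) (by positivity), Real.mul_rpow (by positivity) (by positivity),
      ← Real.rpow_mul hδ0.le, ← Real.rpow_natCast r N, ← Real.rpow_mul hr.le, hθ',
      mul_div_cancel₀ _ hNe, ← hθ', ← hc₀d]
    ring
  have hm8 : c₀ * δ ^ (g * θ) * r ^ ((N:ℝ) - p) ≤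
      C * (d ^ (1 - p) * μ + r ^ (-p) * (C' * (δ ^ g * r ^ N))) := by
    refine (hm7.trans h3).trans ?_
    gcongr
  have hrr : r ^ (-p) * r ^ N = r ^ ((N:ℝ) - p) := by
    rw [← Real.rpow_natCast r N, ← Real.rpow_add hr]; congr 1; ring
  have hm9 : c₀ / 2 * δ ^ (g * θ) * r ^ ((N:ℝ) - p) ≤ C * (d ^ (1 - p) * μ) := by
    have h5 : C * (r ^ (-p) * (C' * (δ ^ g * r ^ N))) = (C * C' * δ ^ g) * r ^ ((N:ℝ) - p) := by
      rw [← hrr]; ring
    have h6 : (C * C' * δ ^ g) * r ^ ((N:ℝ) - p) ≤ (c₀ / 2 * δ ^ (g * θ)) * r ^ ((N:ℝ) - p) :=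
      mul_le_mul_of_nonneg_right hδc (by positivity)
    rw [mul_add, h5] at hm8
    have h7 : c₀ * δ ^ (g * θ) * r ^ ((N:ℝ) - p) =
        c₀ / 2 * δ ^ (g * θ) * r ^ ((N:ℝ) - p) + c₀ / 2 * δ ^ (g * θ) * r ^ ((N:ℝ) - p) := by ring
    linarith
  have hd1 : d ^ (p - 1) * d ^ (1 - p) = 1 := by
    rw [← Real.rpow_add hd]; simp
  have hr1 : r ^ (p - (N:ℝ)) * r ^ ((N:ℝ) - p) = 1 := by
    rw [← Real.rpow_add hr]; simp
  have hm10 := mul_le_mul_of_nonneg_left hm9
    (show 0 ≤ d ^ (p - 1) * r ^ (p - (N:ℝ)) * (2 / (c₀ * δ ^ (g * θ))) by positivity)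
  have hne : c₀ * δ ^ (g * θ) ≠ 0 := by positivity
  calc d ^ (p - 1) = d ^ (p - 1) * (r ^ (p - (N:ℝ)) * r ^ ((N:ℝ) - p)) *
        ((c₀ * δ ^ (g * θ)) / (c₀ * δ ^ (g * θ))) := by
        rw [hr1, div_self hne]; ring
    _ = d ^ (p - 1) * r ^ (p - (N:ℝ)) * (2 / (c₀ * δ ^ (g * θ))) *
        (c₀ / 2 * δ ^ (g * θ) * r ^ ((N:ℝ) - p)) := by ring
    _ ≤ d ^ (p - 1) * r ^ (p - (N:ℝ)) * (2 / (c₀ * δ ^ (g * θ))) * (C * (d ^ (1 - p) * μ)) := hm10
    _ = (d ^ (p - 1) * d ^ (1 - p)) * (2 * C / (c₀ * δ ^ (g * θ)) * (r ^ (p - (N:ℝ)) * μ)) := by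
        ring
    _ = _ := by rw [hd1, one_mul]

end Helper35.SDim
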